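import Pool.Agent.Helper83.EIN2.Goals

/-!
# Packet LLZ (MP_06d934_gt, project EIN2): the zeros of the chart `LL` at `t = 0`.
-/

set_option autoImplicit false

namespace Pool.Agent.Helper26.EIN2

open Finset Topology Filter Pool.Agent.Helper83.EIN Pool.Agent.Helper83.EIN2

theorem sLL_lt {a β : ℝ} (ha : 0 < a) (ha1 : a < 1) (hb : 0 < β) (hb1 : β < 1) :
    |sLL a β| < 1 := by
  have hD : 0 < ((1 + β) ^ 2 + β * (1 - β)) ^ 2 := by nlinarith [mul_pos hb (sub_pos.2 hb1), sq_nonneg (1 + β)]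
  have hN : 0 < (1 + β) * ((1 + β) ^ 3 + (1 - β) * β ^ 2) := by
    have := sub_pos.2 hb1
    positivity
  have hND : (1 + β) * ((1 + β) ^ 3 + (1 - β) * β ^ 2) < ((1 + β) ^ 2 + β * (1 - β)) ^ 2 := by
    have h : 0 < β * (1 - β) * (2 + 4 * β) := by
      have := sub_pos.2 hb1
      positivity
    nlinarith [h]
  have h1 : |1 - 2 * a| < 1 := by
    rw [abs_lt]; constructor <;> linarith
  unfold sLL
  rw [abs_div, abs_of_pos hD, div_lt_one hD, mul_assoc, abs_mul, abs_of_pos hN]
  calc |1 - 2 * a| * ((1 + β) * ((1 + β) ^ 3 + (1 - β) * β ^ 2))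
      < 1 * ((1 + β) * ((1 + β) ^ 3 + (1 - β) * β ^ 2)) := mul_lt_mul_of_pos_right h1 hN
    _ < _ := by rw [one_mul]; exact hND

/-- The equations at `t = 0`. -/
theorem eqs {a β : ℝ} (p : Fin 12 → ℝ) : FLL a β 0 p = 0 ↔
    (-((1 - a) * p 1) + ((1 - β) * p 4 + β * p 3) - (β * p 2 + p 4) = 0 ∧
    -((1 - a) * p 1) + ((1 - β) * p 4 + β * p 3) - (β * p 3 - (1 + β) * p 4) = 0 ∧
    -((1 - a) * p 1) + ((1 - β) * p 4 + β * p 3) - (p 3 - (1 + β) * p 2) = 0 ∧
    -(a * (p 10 - p 11 - p 1)) + ((1 - β) * p 7 + β * p 6) - (β * p 5 + p 7) = 0 ∧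
    -(a * (p 10 - p 11 - p 1)) + ((1 - β) * p 7 + β * p 6) - (β * p 6 - (1 + β) * p 7) = 0 ∧
    -(a * (p 10 - p 11 - p 1)) + ((1 - β) * p 7 + β * p 6) - (p 6 - (1 + β) * p 5) = 0 ∧
    -(a * p 10) + (1 - β) * (p 7 - p 4) - ((β * p 8 + (1 - β) * p 9) * p 0 - β * p 8) = 0 ∧
    -(a * p 11) - β * (p 6 - p 3) - ((β * p 8 + (1 - β) * p 9) * p 0 - (1 + β) * p 9) = 0 ∧
    (1 - p 0 ^ 2) - β * p 8 * (2 * β) = 0 ∧
    (1 - p 0 ^ 2) - (1 + β) * p 9 * (2 * (1 + β)) = 0 ∧
    p 10 - p 8 * (2 * β) = 0 ∧ p 11 - p 9 * (2 * (1 + β)) = 0) := by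
  constructor
  · intro h
    have k := fun i ↦ congrFun h i
    refine ⟨?_, ?_, ?_, ?_, ?_, ?_, ?_, ?_, ?_, ?_, ?_, ?_⟩
    · have := k 0; simp [FLL, lenLL] at this; linear_combination this
    · have := k 1; simp [FLL, lenLL] at this; linear_combination this
    · have := k 2; simp [FLL, lenLL] at this; linear_combination this
    · have := k 3; simp [FLL, lenLL] at this; linear_combination this
    · have := k 4; simp [FLL, lenLL] at this; linear_combination this
    · have := k 5; simp [FLL, lenLL] at this; linear_combination this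
    · have := k 6; simp [FLL, lenLL] at this; linear_combination this
    · have := k 7; simp [FLL, lenLL] at this; linear_combination this
    · have := k 8; simp [FLL, lenLL] at this; linear_combination this
    · have := k 9; simp [FLL, lenLL] at this; linear_combination this
    · have := k 10; simp [FLL, lenLL] at this; linear_combination this
    · have := k 11; simp [FLL, lenLL] at this; linear_combination this
  · rintro ⟨h0, h1, h2, h3, h4, h5, h6, h7, h8, h9, h10, h11⟩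
    funext i
    fin_cases i
    · simp [FLL, lenLL]; linear_combination h0
    · simp [FLL, lenLL]; linear_combination h1
    · simp [FLL, lenLL]; linear_combination h2
    · simp [FLL, lenLL]; linear_combination h3
    · simp [FLL, lenLL]; linear_combination h4
    · simp [FLL, lenLL]; linear_combination h5
    · simp [FLL, lenLL]; linear_combination h6
    · simp [FLL, lenLL]; linear_combination h7
    · simp [FLL, lenLL]; linear_combination h8
    · simp [FLL, lenLL]; linear_combination h9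
    · simp [FLL, lenLL]; linear_combination h10
    · simp [FLL, lenLL]; linear_combination h11


/-- The polynomial whose zeros are `1`, `-1`, `sLL`. -/
theorem roots {a β s : ℝ} (hb : 0 < β) (hb1 : β < 1) :
    (1 - s ^ 2) * (((1 + β) ^ 2 + β * (1 - β)) ^ 2 * s -
      (1 - 2 * a) * (1 + β) * ((1 + β) ^ 3 + (1 - β) * β ^ 2)) = 0 ↔
      (s = 1 ∨ s = -1 ∨ s = sLL a β) := by
  have hD : ((1 + β) ^ 2 + β * (1 - β)) ^ 2 ≠ 0 := by
    have := sub_pos.2 hb1
    positivity
  constructor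
  · intro h
    rcases mul_eq_zero.1 h with h | h
    · have : (s - 1) * (s + 1) = 0 := by linear_combination -h
      rcases mul_eq_zero.1 this with h | h
      · left; linarith
      · right; left; linarith
    · right; right
      unfold sLL
      rw [eq_div_iff hD]
      linear_combination h
  · rintro (h | h | h)
    · subst h; ring
    · subst h; ring
    · have : ((1 + β) ^ 2 + β * (1 - β)) ^ 2 * s =
          (1 - 2 * a) * (1 + β) * ((1 + β) ^ 3 + (1 - β) * β ^ 2) := by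
        rw [h]; unfold sLL; exact mul_div_cancel₀ _ hD
      rw [this]; ring

theorem fwd {a β : ℝ} (hb : 0 < β) (hb1 : β < 1) {p : Fin 12 → ℝ} (h : FLL a β 0 p = 0) :
    p = zLL a β (p 0) ∧ (1 - p 0 ^ 2) * (((1 + β) ^ 2 + β * (1 - β)) ^ 2 * p 0 -
      (1 - 2 * a) * (1 + β) * ((1 + β) ^ 3 + (1 - β) * β ^ 2)) = 0 := by
  obtain ⟨h0, h1, h2, h3, h4, h5, h6, h7, h8, h9, h10, h11⟩ := (eqs p).1 h
  have hg : (1 - β) ≠ 0 := (sub_pos.2 hb1).ne'
  have hβ : β ≠ 0 := hb.ne'
  have hβ1 : (1 + β) ≠ 0 := by positivity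
  have e8 : p 8 = (1 - p 0 ^ 2) / (2 * β ^ 2) := by
    rw [eq_div_iff (by positivity)]; linear_combination -h8
  have e9 : p 9 = (1 - p 0 ^ 2) / (2 * (1 + β) ^ 2) := by
    rw [eq_div_iff (by positivity)]; linear_combination -h9
  have e10 : p 10 = (1 - p 0 ^ 2) / β := by
    have : p 10 = p 8 * (2 * β) := by linear_combination h10
    rw [this, e8]; field_simp
  have e11 : p 11 = (1 - p 0 ^ 2) / (1 + β) := by
    have : p 11 = p 9 * (2 * (1 + β)) := by linear_combination h11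
    rw [this, e9]; field_simp
  have e4 : p 4 = (1 - a) * p 1 / 2 := by linear_combination h1 / 2
  have e2 : p 2 = p 4 / β ^ 2 := by
    rw [eq_div_iff (by positivity)]
    linear_combination ((1 - β) * h0 + β * h2 - h1) / 2
  have e3 : p 3 = (1 + β) ^ 2 * (p 4 / β ^ 2) := by
    rw [← e2]
    have : β * (p 3 - (1 + β) ^ 2 * p 2) = 0 := by
      have e2' : p 4 = p 2 * β ^ 2 := by rw [e2]; field_simp
      linear_combination h0 - h1 + (2 + β) * e2'
    rcases mul_eq_zero.1 this with h | h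
    · exact absurd h hβ
    · linear_combination h
  have e7 : p 7 = a * (p 10 - p 11 - p 1) / 2 := by linear_combination h4 / 2
  have e5 : p 5 = p 7 / β ^ 2 := by
    rw [eq_div_iff (by positivity)]
    linear_combination ((1 - β) * h3 + β * h5 - h4) / 2
  have e6 : p 6 = (1 + β) ^ 2 * (p 7 / β ^ 2) := by
    rw [← e5]
    have : β * (p 6 - (1 + β) ^ 2 * p 5) = 0 := by
      have e2' : p 7 = p 5 * β ^ 2 := by rw [e5]; field_simp
      linear_combination h3 - h4 + (2 + β) * e2'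
    rcases mul_eq_zero.1 this with h | h
    · exact absurd h hβ
    · linear_combination h
  have e1 : p 1 = 2 * a * ((1 - p 0 ^ 2) / (2 * β * (1 + β))) - 2 / (1 - β) * ((1 - p 0 ^ 2) *
      (((1 + β) ^ 2 + β * (1 - β)) / (2 * β * (1 + β) ^ 2) * p 0 - (1 - a - a) / (2 * β))) := by
    have : p 1 = a * (p 10 - p 11) - 2 / (1 - β) *
        (a * p 10 + (β * p 8 + (1 - β) * p 9) * p 0 - β * p 8) := by
      rw [e7, e4] at h6
      field_simp
      linear_combination -2 * h6
    rw [this, e8, e9, e10, e11]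
    field_simp
    ring
  refine ⟨?_, ?_⟩
  · have e12 : p 10 - p 11 - p 1 = 2 * ((1 - p 0 ^ 2) / (2 * β * (1 + β))) - p 1 := by
      rw [e10, e11]; field_simp; ring
    rw [e12] at e7
    funext i
    fin_cases i
    · simp [zLL]
    · simpa [zLL] using e1
    · simp only [zLL]
      simp
      rw [← e1, e2, e4]; field_simp
    · simp only [zLL]
      simp
      rw [← e1, e3, e4]; field_simp
    · simp only [zLL]
      simp
      rw [← e1, e4]
    · simp only [zLL]
      simp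
      rw [← e1, e5, e7]; field_simp
    · simp only [zLL]
      simp
      rw [← e1, e6, e7]; field_simp
    · simp only [zLL]
      simp
      rw [← e1, e7]
    · simpa [zLL] using e8
    · simpa [zLL] using e9
    · simpa [zLL] using e10
    · simpa [zLL] using e11
  · have e63 : p 6 - p 3 = (1 + β) ^ 2 / β ^ 2 * (p 7 - p 4) := by
      rw [e6, e3]; ring
    have e74 : (1 - β) * (p 7 - p 4) = a * p 10 + ((β * p 8 + (1 - β) * p 9) * p 0 - β * p 8) := by
      linear_combination h6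
    have k : -(a * p 11 * (1 - β)) - (1 + β) ^ 2 / β *
        (a * p 10 + ((β * p 8 + (1 - β) * p 9) * p 0 - β * p 8)) -
        (1 - β) * ((β * p 8 + (1 - β) * p 9) * p 0 - (1 + β) * p 9) = 0 := by
      rw [← e74]
      rw [e63] at h7
      field_simp at h7 ⊢
      linear_combination (1 - β) * h7
    rw [e8, e9, e10, e11] at k
    field_simp at k
    linear_combination -k

theorem bwd {a β s : ℝ} (hb : 0 < β) (hb1 : β < 1)
    (h : (1 - s ^ 2) * (((1 + β) ^ 2 + β * (1 - β)) ^ 2 * s -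
      (1 - 2 * a) * (1 + β) * ((1 + β) ^ 3 + (1 - β) * β ^ 2)) = 0) :
    FLL a β 0 (zLL a β s) = 0 := by
  have hg : (1 - β) ≠ 0 := (sub_pos.2 hb1).ne'
  have hβ : β ≠ 0 := hb.ne'
  have hβ1 : (1 + β) ≠ 0 := by positivity
  set p := zLL a β s with hp
  have e0 : p 0 = s := by simp [hp, zLL]
  have e8 : p 8 = (1 - s ^ 2) / (2 * β ^ 2) := by simp [hp, zLL]
  have e9 : p 9 = (1 - s ^ 2) / (2 * (1 + β) ^ 2) := by simp [hp, zLL]
  have e10 : p 10 = (1 - s ^ 2) / β := by simp [hp, zLL]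
  have e11 : p 11 = (1 - s ^ 2) / (1 + β) := by simp [hp, zLL]
  have e1 : p 1 = 2 * a * ((1 - s ^ 2) / (2 * β * (1 + β))) - 2 / (1 - β) * ((1 - s ^ 2) *
      (((1 + β) ^ 2 + β * (1 - β)) / (2 * β * (1 + β) ^ 2) * s - (1 - a - a) / (2 * β))) := by
    simp [hp, zLL]
  have e4 : p 4 = (1 - a) * p 1 / 2 := by simp [hp, zLL]
  have e2 : p 2 = (1 - a) * p 1 / (2 * β ^ 2) := by simp [hp, zLL]
  have e3 : p 3 = (1 + β) ^ 2 * ((1 - a) * p 1 / (2 * β ^ 2)) := by simp [hp, zLL]
  have e12 : p 10 - p 11 - p 1 = 2 * ((1 - s ^ 2) / (2 * β * (1 + β))) - p 1 := by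
    rw [e10, e11]; field_simp; ring
  have e7 : p 7 = a * (p 10 - p 11 - p 1) / 2 := by rw [e12]; simp [hp, zLL]
  have e5 : p 5 = a * (p 10 - p 11 - p 1) / (2 * β ^ 2) := by rw [e12]; simp [hp, zLL]
  have e6 : p 6 = (1 + β) ^ 2 * (a * (p 10 - p 11 - p 1) / (2 * β ^ 2)) := by
    rw [e12]; simp [hp, zLL]
  rw [eqs]
  refine ⟨?_, ?_, ?_, ?_, ?_, ?_, ?_, ?_, ?_, ?_, ?_, ?_⟩
  · rw [e2, e3, e4]; field_simp; ring
  · rw [e3, e4]; field_simp; ring
  · rw [e2, e3, e4]; field_simp; ring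
  · rw [e5, e6, e7]; field_simp; ring
  · rw [e6, e7]; field_simp; ring
  · rw [e5, e6, e7]; field_simp; ring
  · rw [e7, e4, e0, e8, e9, e10, e11, e1]; field_simp; ring
  · rw [e6, e3, e0, e8, e9, e10, e11, e1]; field_simp; linear_combination -h
  · rw [e0, e8]; field_simp; ring
  · rw [e0, e9]; field_simp; ring
  · rw [e8, e10]; field_simp; ring
  · rw [e9, e11]; field_simp; ring

/-- **LLZ**. -/
theorem llz : Pool.Agent.Helper83.EIN2.LLZ := by
  intro a β ha ha1 hb hb1
  refine ⟨sLL_lt ha ha1 hb hb1, fun p ↦ ⟨fun h ↦ ?_, ?_⟩⟩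
  · obtain ⟨h1, h2⟩ := fwd hb hb1 h
    rcases (roots hb hb1).1 h2 with h | h | h <;> rw [h] at h1
    · exact Or.inl h1
    · exact Or.inr (Or.inl h1)
    · exact Or.inr (Or.inr h1)
  · rintro (rfl | rfl | rfl)
    · exact bwd hb hb1 ((roots hb hb1).2 (Or.inl rfl))
    · exact bwd hb hb1 ((roots hb hb1).2 (Or.inr (Or.inl rfl)))
    · exact bwd hb hb1 ((roots hb hb1).2 (Or.inr (Or.inr rfl)))

end Pool.Agent.Helper26.EIN2
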